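import Pool.Agent.V11230.FactRed

/-!
# Factorization of finite languages is NP-hard

Reduction from 3-satisfiability. The language consists of the words `a ^ n s_v` (`n` in `C_v`) for the
clauses `v` (and three further `v`), so that a nontrivial factorization is the same as finite sets `A`
different from `{0}` and `B_v` of natural numbers with `A + B_v = C_v` for all `v`. The numbers are
`k E + r` with a level `k` and a small offset `r`. Let `T` be a Sidon set (the atoms, one for every
literal), with least element `0` and greatest element `s`. The intended solution is
`A = {0, 10 E} ∪ {E + t | t true}` and `B_v = {0, 10 E} ∪ {E + t | t false} ∪ {2 E + t + t' | t, t'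
belong to different variables} ∪ (3 E + [0, 3 s]) ∪ …`. Since `2 E + 2 t` is not in `C_v`, an atom is in
`A` or in all the `B_v`, but not in both; since `10 E` is in `A` and `12 E + t + t'` is not in `C_v` for
complementary `t, t'`, the sum of two complementary atoms is covered by the atoms themselves. A clause
is a point of level `51` which is covered if and only if one of its atoms is in `A`. The intervals at
the higher levels hide all the other sums.
-/

namespace Pool.Agent.Results.MP_e24068_lc.FactNPHard

open Pool.Agent.NPC Pool.Agent.NPC.V11230.Fact

/-- It is NP-hard to decide whether a finite language given by the list of its words has a nontrivial
factorization. -/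
theorem result : NPHardP FACT := npHard_FACT

end Pool.Agent.Results.MP_e24068_lc.FactNPHard
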